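import Mathlib
import Pool.Agent.Lib.helper17.AGolomb

set_option autoImplicit false

namespace Pool.Agent.Results.MP_04502c_nt.Holds

open Finset Filter H17AG
open scoped ENNReal

/-- The upper limit of `a(n) / n`, taken in `[0, ∞]`. -/
noncomputable def Lmax (a : ℕ → ℕ) : ℝ≥0∞ := limsup (fun n : ℕ => (a n : ℝ≥0∞) / n) atTop

theorem small (k r : ℕ) (hr : 5 ≤ r) : k * g r r ≤ r + k * (k + 3) ^ 2 := by
  have h : 2 ≤ r := by omega
  have a := (key h r _ (Meq hr).1).mp le_rfl
  have l : ∀ i, g r i ≤ i := fun i => by simpa [g] using lip r 0 i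
  have b : ∀ m ≤ r, S r (g r) m ≤ m ^ 2 := fun m hm => by
    induction m with
    | zero => simp [S, g]
    | succ m ih =>
      have := sS r h (g r) m
      have := l (m + 1)
      have := ih (by omega)
      nlinarith [Nat.zero_le (g r (m + 1 - r))]
  by_cases c : g r r ≤ (k + 3) ^ 2
  · exact (Nat.mul_le_mul_left _ c).trans (by omega)
  have d : ∀ j, (k + 3) ^ 2 + j ≤ r → k * j ≤ S r (g r) ((k + 3) ^ 2 + j) := fun j hj => by
    induction j with
    | zero => simp
    | succ j ih =>
      have := sS r h (g r) ((k + 3) ^ 2 + j)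
      have := (key h ((k + 3) ^ 2 + j + 1) (k + 3) (by omega)).mpr
        ((b _ (by nlinarith)).trans (by omega))
      have := ih (by omega)
      rw [Nat.sub_eq_zero_of_le (by omega), g] at *
      rw [← add_assoc, mul_add]
      omega
  obtain ⟨j, e⟩ := Nat.exists_eq_add_of_le (not_le.mp c).le
  have := d j (e ▸ l r)
  rw [e] at a ⊢
  rw [mul_add]
  omega

theorem result : (∀ r ≥ 2, ∃ a, AlmostGolomb r a) ∧ ∀ a : ℕ → ℕ → ℕ,
    (∀ r ≥ 2, AlmostGolomb r (a r)) → Tendsto (fun r => Lmax (a r)) atTop (nhds 0) := by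
  refine ⟨fun r hr => ⟨_, ag hr⟩, fun a ha => ENNReal.tendsto_nhds_zero.mpr fun ε h => ?_⟩
  obtain ⟨k, hk⟩ := ENNReal.exists_inv_nat_lt h.ne'
  filter_upwards [eventually_ge_atTop (5 + 4 * (k + 1) * (4 * (k + 1) + 3) ^ 2)] with r hr
  have h5 : 5 ≤ r := by omega
  have h2 : 2 ≤ r := by omega
  have s := small (4 * (k + 1)) r h5
  have w : ∀ q n, n ≤ q * r → g r n ≤ q * g r r := fun q => by
    induction q with
    | zero => simp [g]
    | succ q ih =>
      intro n hn
      have := (mono r hn).trans (Nat.succ_mul q r ▸ win h2 _ (Meq h5).1 le_rfl (q * r))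
      have := ih _ le_rfl
      rw [Nat.succ_mul]
      omega
  rw [uniq h2 (ha r h2)]
  refine (limsup_le_of_le (by isBoundedDefault) ?_).trans hk.le
  filter_upwards [eventually_ge_atTop r] with n hn
  have a := w (n / r + 1) n (by rw [mul_comm]; exact (Nat.lt_mul_div_succ n (by omega)).le)
  have b := Nat.div_mul_le_self n r
  have c := Nat.div_pos hn (by omega)
  have d : k * g r n ≤ n := by
    have : 2 * k * g r r ≤ r := by nlinarith
    calc _ ≤ k * ((n / r + n / r) * g r r) :=
          Nat.mul_le_mul_left _ (a.trans (Nat.mul_le_mul_right _ (by omega)))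
      _ = n / r * (2 * k * g r r) := by ring
      _ ≤ _ := (Nat.mul_le_mul_left _ this).trans b
  rw [ENNReal.le_inv_iff_mul_le, div_eq_mul_inv, mul_right_comm, ← div_eq_mul_inv]
  exact ENNReal.div_le_of_le_mul (by rw [one_mul, mul_comm]; exact_mod_cast d)

end Pool.Agent.Results.MP_04502c_nt.Holds
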